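import Mathlib
import Pool.Agent.Lib.MP_2619d0_ag.PC.P11
import Pool.Agent.Lib.MP_2619d0_ag.VeryGeneral

/-!
# The parity of the degree of points of a very general cubic hypersurface over an extension field:
secants, tangents and rational curves
-/

set_option autoImplicit false

namespace Pool.Agent.Results.MP_2619d0_ag.DegreeParity

open MvPolynomial

universe u

/-- The property `p` holds for the very general cubic form in `m + 2` variables: there are
countably many polynomial conditions on the coefficients, each satisfied by some cubic form, such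
that `p F` holds for every cubic form `F` satisfying all of them. -/
def VeryGeneral (m : ℕ) (p : MvPolynomial (Fin (m + 2)) ℂ → Prop) : Prop :=
  ∃ P : ℕ → MvPolynomial ((Fin (m + 2)) →₀ ℕ) ℂ,
    (∀ k, ∃ G : MvPolynomial (Fin (m + 2)) ℂ, G.IsHomogeneous 3 ∧
        MvPolynomial.eval (fun d => G.coeff d) (P k) ≠ 0) ∧
    ∀ F : MvPolynomial (Fin (m + 2)) ℂ, F.IsHomogeneous 3 →
      (∀ k, MvPolynomial.eval (fun d => F.coeff d) (P k) ≠ 0) → p F

variable {n : ℕ} {L : Type u} [Field L] [Algebra ℂ L]

/-- `x` is a generic point of the projective hypersurface `X = (F = 0)`, given by homogeneous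
coordinates in the extension field `L` of `ℂ`: a form vanishes at `x` if and only if it is
divisible by `F`. -/
def IsGenericPoint (F : MvPolynomial (Fin n) ℂ) (x : Fin n → L) : Prop :=
  ∀ (d : ℕ) (G : MvPolynomial (Fin n) ℂ), G.IsHomogeneous d → (aeval x G = 0 ↔ F ∣ G)

/-- The subfield `ℂ(x_i / x_j)` of `L` generated by the ratios of the coordinates of `x`. If `x`
is a generic point of `X = (F = 0)`, this is the function field `ℂ(X)`. -/
noncomputable def ratioField (x : Fin n → L) : IntermediateField ℂ L :=
  IntermediateField.adjoin ℂ {z : L | ∃ i j, z = x i / x j}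

/-- The field `ℂ(X)(v)`, if `x` is a generic point of `X`. -/
noncomputable def productField {r : ℕ} (x : Fin n → L) (v : Fin r → L) :
    IntermediateField (ratioField x) L :=
  IntermediateField.adjoin (ratioField x) (Set.range v)

open Classical in
/-- The degree `[L : ℂ(X)]` of a generic point `x ∈ X(L)`; it is `0` if the extension is infinite or if
`x` is not a generic point of `X`. If `L = ℂ(Y)` and `dim Y = dim X`, this is the degree of the rational
map `x : Y ⇢ X` (`0` if it is not dominant). -/
noncomputable def degree (F : MvPolynomial (Fin n) ℂ) (x : Fin n → L) : ℕ :=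
  if IsGenericPoint F x then Module.finrank (ratioField x) L else 0

/-- `polar F x y = ∑ y_j ∂F/∂x_j (x)`; it is zero iff `y` lies in the tangent space of `X` at `x`. -/
noncomputable def polar (F : MvPolynomial (Fin n) ℂ) (x y : Fin n → L) : L :=
  ∑ j, y j * aeval x (pderiv j F)

/-- The third intersection point of `X = (F = 0)` with the line through the points `x` and `y` of
`X`; it is `0` if the line is contained in `X`. -/
noncomputable def third (F : MvPolynomial (Fin n) ℂ) (x y : Fin n → L) : Fin n → L :=
  fun i => polar F x y * y i - polar F y x * x i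

/-- The binary forms `ψ_j` over `ℂ` are a limit (a specialisation) of the binary forms `φ_j` over `L`: every
homogeneous relation over `ℂ` between the coefficients of the `φ_j` holds for the coefficients of the `ψ_j`; that is, the
point `ψ` lies in the closure over `ℂ` of the point `φ` of the projective space of all coefficient vectors. -/
def IsLimit (φ : Fin n → MvPolynomial (Fin 2) L) (ψ : Fin n → MvPolynomial (Fin 2) ℂ) : Prop :=
  ∀ (G : MvPolynomial (Fin n × (Fin 2 →₀ ℕ)) ℂ) (d : ℕ), G.IsHomogeneous d →
    aeval (fun jc => coeff jc.2 (φ jc.1)) G = 0 → aeval (fun jc => coeff jc.2 (ψ jc.1)) G = 0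

/-- No complex limit of the binary forms `φ_j` of degree `e` has a common zero of multiplicity three or more (this
always holds for `e ≤ 2`). -/
def NoTripleZeroInLimit (e : ℕ) (φ : Fin n → MvPolynomial (Fin 2) L) : Prop :=
  ∀ ψ : Fin n → MvPolynomial (Fin 2) ℂ, (∀ j, (ψ j).IsHomogeneous e) → ψ ≠ 0 → IsLimit φ ψ →
    ∀ l : MvPolynomial (Fin 2) ℂ, l.IsHomogeneous 1 → l ≠ 0 → ¬ ∀ j, l ^ 3 ∣ ψ j

/-- `x` and `w` are points with coordinates in `L` of one rational curve over `L` in `X = (F = 0)`, of one of two
kinds: there is a map `φ` from the projective line to `X`, given by binary forms `φ_j` over `L` of the same degree `e`,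
with `x = φ(p)` and `w = φ(q)`, such that either no complex limit of `φ` has a triple zero, or `e ≤ 3` and the `φ_j` span a
space of dimension at most three (a plane curve: line, conic, nodal or cuspidal cubic; also `w = c x`). -/
def OnCurve (F : MvPolynomial (Fin n) ℂ) (x w : Fin n → L) : Prop :=
  ∃ (e : ℕ) (φ : Fin n → MvPolynomial (Fin 2) L), (∀ j, (φ j).IsHomogeneous e) ∧
    aeval φ F = 0 ∧
      (NoTripleZeroInLimit e φ ∨ (e ≤ 3 ∧ Module.finrank L (Submodule.span L (Set.range φ)) ≤ 3)) ∧
        ∃ p q : Fin 2 → L, x = (fun j => eval p (φ j)) ∧ w = (fun j => eval q (φ j)) ∧ x ≠ 0 ∧ w ≠ 0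

/-- The relations between the points of `X(L)`, in the vector space over `ZMod 2` with the basis `X(L)` (the
basis vector of the point `x` is `Finsupp.single x 1`):
* `x = 0`, if `x` is not a generic point of `X` (for example a point over `ℂ`, or over any subfield of `L` of
  transcendence degree less than the dimension of `X`);
* `x + y + z = 0`, if `x ≠ y` and `z` is the third point of `X` on the line through `x` and `y`;
* `x + w = 0`, if `x` and `w` lie on one rational curve over `L` in `X` of one of the two kinds of `OnCurve`. -/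
def relations (F : MvPolynomial (Fin n) ℂ) (L : Type u) [Field L] [Algebra ℂ L] :
    Set ((Fin n → L) →₀ ZMod 2) :=
  {a | (∃ x : Fin n → L, aeval x F = 0 ∧ ¬ IsGenericPoint F x ∧ a = Finsupp.single x 1) ∨
    (∃ x y : Fin n → L, LinearIndependent L ![x, y] ∧ aeval x F = 0 ∧ aeval y F = 0 ∧
      a = Finsupp.single x 1 + Finsupp.single y 1 + Finsupp.single (third F x y) 1) ∨
    ∃ x w : Fin n → L, OnCurve F x w ∧ a = Finsupp.single x 1 + Finsupp.single w 1}

private theorem link {m : ℕ} {F : MvPolynomial (Fin (m + 1 + 1)) ℂ} (hF : F.IsHomogeneous 3)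
    {x w : Fin (m + 1 + 1) → L} (h : OnCurve F x w) : MP2619.PC.Lk F x w ∨ MP2619.PC.LkN F x w := by
  obtain ⟨e, φ, hφ, h0, hs, p, q, hx, hw, hx0, hw0⟩ := h
  rw [hx] at hx0
  rw [hw] at hw0
  rw [hx, hw]
  rcases hs with hs | ⟨he, hs⟩
  · exact Or.inr (MP2619.PC.lkN_of_forms φ hφ h0 hs p q hx0 hw0)
  · exact Or.inl (MP2619.PC.lk_of_forms hF he φ hφ h0 hs p q hx0 hw0)

/-- Let `m ≥ 3` and let `X = (F = 0) ⊂ ℙ^{m+1}` be the very general cubic hypersurface, `L` any extension field
of `ℂ`.
(1) The parity of the degree is additive: if `x ≠ y` are points of `X(L)` and `z` is the third point of `X` on the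
line through `x` and `y`, then `deg x + deg y + deg z` is even.
(2) The parity of the degree is constant on every rational curve over `L` in `X` (of any degree) such that no complex
limit of the curve has a triple zero, and on every rational plane curve over `L` in `X`.
(3) Let `x ∈ X(L)` be a generic point of `X` whose class in the vector space over `𝔽_2` generated by `X(L)` with the
relations `relations F L` is zero, and let `v_1, …, v_r ∈ L` be algebraically independent over
`ℂ(X) = ℂ(x_i / x_j)`. Then the degree `[L : ℂ(X)(v_1, …, v_r)] = [L : ℂ(X × 𝔸^r)]` is even or infinite (`finrank` is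
`0` for an infinite extension).

For example: if `L = ℂ(Y)` and `Y ⇢ X × 𝔸^r` is a dominant map of odd degree (`Y = ℙ^{m+r}` and the map birational, if
`X` is rational or stably rational), then its component `x : Y ⇢ X` is not obtained from constant points, and from
points defined over subfields of `L` of transcendence degree less than `m`, by any finite number of secants,
tangents, and rational curves over `L` of the kinds in (2). In particular, no dominant map `B × ℙ^1 ⇢ X` of odd degree
is a family of rational curves of any degree, parametrised by any base `B`, without triple zeros in its limits; the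
known birational parametrisations of smooth cubic hypersurfaces which contain two disjoint linear spaces of dimension
`m / 2` are of this kind. -/
theorem result :
    ∀ m : ℕ, 3 ≤ m → VeryGeneral m (fun F =>
      ∀ (L : Type u) [Field L] [Algebra ℂ L],
        (∀ x y : Fin (m + 2) → L, LinearIndependent L ![x, y] → aeval x F = 0 → aeval y F = 0 →
          Even (degree F x + degree F y + degree F (third F x y))) ∧
        (∀ x w : Fin (m + 2) → L, OnCurve F x w → Even (degree F x + degree F w)) ∧
        ∀ x : Fin (m + 2) → L,
          Finsupp.single x (1 : ZMod 2) ∈ Submodule.span (ZMod 2) (relations F L) →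
            IsGenericPoint F x → ∀ (r : ℕ) (v : Fin r → L),
              AlgebraicIndependent (ratioField x) v → Even (Module.finrank (productField x v) L)) := by
  classical
  intro m hm
  obtain ⟨P, hP1, hP2⟩ := Pool.Agent.Lib.MP_2619d0_ag.exists_conditions (m + 2)
  refine ⟨P, hP1, ?_⟩
  intro F hF hFP L _ _
  have hVG : Pool.Agent.Lib.MP_2619d0_ag.T.VG F := ⟨hF, hP2 F hF hFP⟩
  have hNS : MP2619.N.NoSum.{u} F := MP2619.N.noSum (by omega) hVG
  have hU : MP2619.PC.U2.{u} F := MP2619.PC.u2_holds hm hVG
  have hodd : ∀ z : Fin (m + 2) → L, MP2619.N.OddPt F z ↔ Odd (degree F z) := by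
    intro z
    unfold degree
    by_cases hz : IsGenericPoint F z
    · rw [if_pos hz]
      exact ⟨fun h => h.2, fun h => ⟨hz, h⟩⟩
    · rw [if_neg hz]
      exact ⟨fun h => absurd h.1 hz, fun h => absurd h (by decide)⟩
  refine ⟨?_, ?_, ?_⟩
  · intro x y hxy hx hy
    have h := MP2619.N.collinear_law (N := m + 1) (by omega) hVG hNS y x hxy hx hy
    have ht : MP2619.N.tp F y x = third F x y := rfl
    rw [ht, hodd, hodd, hodd] at h
    rw [← Nat.not_odd_iff_even, Nat.odd_add, Nat.odd_add]
    rw [← Nat.not_odd_iff_even, ← Nat.not_odd_iff_even]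
    tauto
  · intro x w hxw
    have hl := link hF hxw
    have h1 : MP2619.N.OddPt F x ↔ MP2619.N.OddPt F w := by
      rcases hl with hl | hl
      · exact ⟨MP2619.PC.lk_par (by omega) hVG hNS hl, MP2619.PC.lk_par (by omega) hVG hNS hl.symm⟩
      · exact MP2619.PC.lkN_iff hU hl
    rw [hodd, hodd] at h1
    rw [← Nat.not_odd_iff_even, Nat.odd_add, ← Nat.not_odd_iff_even]
    tauto
  · intro x hx hg r v hv
    rw [← Nat.not_odd_iff_even]
    have hsub : Submodule.span (ZMod 2) (relations F L) ≤
        Submodule.span (ZMod 2) (MP2619.PC.rels2 F L) := by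
      refine Submodule.span_mono ?_
      rintro a (⟨x, hx, hg, rfl⟩ | ⟨x, y, hl, hx, hy, rfl⟩ | ⟨x, w, hl, rfl⟩)
      · exact Or.inl ⟨x, hx, hg, rfl⟩
      · exact Or.inr (Or.inl ⟨x, y, hl, hx, hy, rfl⟩)
      · exact Or.inr (Or.inr ⟨x, w, link hF hl, rfl⟩)
    exact MP2619.PC.span_stable2 (m := m) (by omega) hVG hNS
      (fun L _ _ x w h => MP2619.PC.lkN_par hU h) (hsub hx) hg v hv

end Pool.Agent.Results.MP_2619d0_ag.DegreeParity
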