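import Mathlib
import Pool.Agent.Lib.MP_2619d0_ag.Z.Final
import Pool.Agent.Lib.MP_2619d0_ag.Q7.B0
import Pool.Agent.Lib.MP_2619d0_ag.VeryGeneral

/-!
# Maps of low degree from products of projective spaces to a very general cubic hypersurface of even dimension
-/

set_option autoImplicit false

namespace Pool.Agent.Results.MP_2619d0_ag.LowDegreeForms

open MvPolynomial

universe u

/-- The property `p` holds for the very general cubic form in `m + 2` variables: there are
countably many polynomial conditions on the coefficients, each satisfied by some cubic form, such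
that `p F` holds for every cubic form `F` satisfying all of them. -/
def VeryGeneral (m : ℕ) (p : MvPolynomial (Fin (m + 2)) ℂ → Prop) : Prop :=
  ∃ P : ℕ → MvPolynomial ((Fin (m + 2)) →₀ ℕ) ℂ,
    (∀ k, ∃ G : MvPolynomial (Fin (m + 2)) ℂ, G.IsHomogeneous 3 ∧
        MvPolynomial.eval (fun d => G.coeff d) (P k) ≠ 0) ∧
    ∀ F : MvPolynomial (Fin (m + 2)) ℂ, F.IsHomogeneous 3 →
      (∀ k, MvPolynomial.eval (fun d => F.coeff d) (P k) ≠ 0) → p F

/-- `x` is a generic point of the projective hypersurface `X = (F = 0)`, given by homogeneous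
coordinates in the extension field `L` of `ℂ`: a form vanishes at `x` if and only if it is
divisible by `F`. -/
def IsGenericPoint {n : ℕ} {L : Type u} [Field L] [Algebra ℂ L] (F : MvPolynomial (Fin n) ℂ)
    (x : Fin n → L) : Prop :=
  ∀ (d : ℕ) (G : MvPolynomial (Fin n) ℂ), G.IsHomogeneous d → (aeval x G = 0 ↔ F ∣ G)

/-- The subfield `ℂ(x_i / x_j)` of `L` generated by the ratios of the coordinates of `x`. If `x`
is a generic point of `X = (F = 0)`, this is the function field `ℂ(X)`. -/
noncomputable def ratioField {n : ℕ} {L : Type u} [Field L] [Algebra ℂ L] (x : Fin n → L) :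
    IntermediateField ℂ L :=
  IntermediateField.adjoin ℂ {z : L | ∃ i j, z = x i / x j}

/-- The field `ℂ(X)(v)`, if `x` is a generic point of `X`. -/
noncomputable def productField {n r : ℕ} {L : Type u} [Field L] [Algebra ℂ L] (x : Fin n → L)
    (v : Fin r → L) : IntermediateField (ratioField x) L :=
  IntermediateField.adjoin (ratioField x) (Set.range v)

/-- The homogeneous coordinates of `ℙ^{a_0} × … × ℙ^{a_{s-1}}`: the `k`-th coordinate of the `i`-th factor is
`⟨i, k⟩`, `k = 0, …, a_i`. -/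
abbrev Coord {s : ℕ} (a : Fin s → ℕ) : Type := Σ i : Fin s, Fin (a i + 1)

/-- `f` is multihomogeneous of multidegree `e`: every monomial of `f` has degree `e i` in the coordinates of the
`i`-th factor. -/
def Multihomogeneous {s : ℕ} {a : Fin s → ℕ} (e : Fin s → ℕ) (f : MvPolynomial (Coord a) ℂ) : Prop :=
  ∀ d : Coord a →₀ ℕ, f.coeff d ≠ 0 → ∀ i, ∑ k : Fin (a i + 1), d ⟨i, k⟩ = e i

/-- `P` are the coordinates of a point of the product: in each factor some coordinate of `P` is not zero. -/
def IsPoint {s : ℕ} {a : Fin s → ℕ} {L : Type u} [Field L] (P : Coord a → L) : Prop :=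
  ∀ i, ∃ k, P ⟨i, k⟩ ≠ 0

/-- The image of the point `p` under the rational map with homogeneous coordinates `φ`. -/
noncomputable def imagePoint {n : ℕ} {σ : Type} {L : Type u} [Field L] [Algebra ℂ L]
    (φ : Fin n → MvPolynomial σ ℂ) (p : σ → L) : Fin n → L :=
  fun j => aeval p (φ j)

private theorem mh_rename {s n : ℕ} {a : Fin s → ℕ} (ε : Coord a ≃ Fin n) {m : ℕ}
    (K : MP2619.Q6.Bk m n s) (hbl : ∀ c : Coord a, K.bl (ε c) = c.1) {d : Fin s → ℕ}
    {g : MvPolynomial (Coord a) ℂ} (hg : Multihomogeneous d g) : K.MH (rename ε g) d := by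
  classical
  intro u' hdj i
  obtain ⟨u, rfl, hu⟩ := coeff_rename_ne_zero _ _ _ hdj
  rw [← hg u hu i]
  have h1 : ∀ l, (Finsupp.mapDomain ε u) l = u (ε.symm l) := by
    intro l
    have h2 := Finsupp.mapDomain_apply ε.injective u (ε.symm l)
    rwa [ε.apply_symm_apply] at h2
  simp only [h1]
  have h3 : ∑ l ∈ Finset.univ.filter (fun l => K.bl l = i), u (ε.symm l) =
      ∑ c ∈ Finset.univ.filter (fun c : Coord a => c.1 = i), u c := by
    refine Finset.sum_nbij' (fun l => ε.symm l) (fun c => ε c) ?_ ?_ ?_ ?_ ?_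
    · intro l hl
      have h4 := (Finset.mem_filter.1 hl).2
      refine Finset.mem_filter.2 ⟨Finset.mem_univ _, ?_⟩
      rw [← hbl, ε.apply_symm_apply]
      exact h4
    · intro c hc
      exact Finset.mem_filter.2 ⟨Finset.mem_univ _, (hbl c).trans (Finset.mem_filter.1 hc).2⟩
    · intro l _
      simp
    · intro c _
      simp
    · intro l _
      rfl
  rw [h3, Finset.sum_filter, Fintype.sum_sigma]
  rw [Finset.sum_eq_single i]
  · simp
  · intro i' _ hi'
    simp [hi']
  · intro h
    exact absurd (Finset.mem_univ _) h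

/-- Let `m ≥ 4` be even and let `X = (F = 0) ⊂ ℙ^{m+1}` be the very general cubic hypersurface. Let
`Y = ℙ^{a_0} × … × ℙ^{a_{s-1}}` be a product of projective spaces of any dimension, `φ_0, …, φ_{m+1}` forms on `Y` of the
same multidegree `e` with `F(φ) = 0`, `L` an extension field of `ℂ` and `p ∈ Y(L)` any point whose image `x = φ(p)` is a
generic point of `X`; let `v_1, …, v_r ∈ L` be algebraically independent over `ℂ(X) = ℂ(x_i / x_j)`. Assume that all
`e_i ≤ 2` except at most one, which is at most `4` (at most `5` if `m = dim Y = 4`). Then the degree `[L : ℂ(X)(v)]` is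
even or infinite (`finrank` is `0` for an infinite extension).

For `r = 0` and `L = ℂ(V)`: no subvariety `V ⊂ Y` is mapped by `φ` onto `X` with odd degree. For `L = ℂ(X)`: the same for
a rational section. For `L = ℂ(Y)`, `dim Y = m + r`: there is no dominant map `Y ⇢ X × 𝔸^r` of odd degree, in particular
no birational one, whose component `Y ⇢ X` is given by `φ`. -/
theorem result :
    ∀ m : ℕ, 4 ≤ m → Even m → VeryGeneral m (fun F =>
      ∀ (L : Type u) [Field L] [Algebra ℂ L] (s : ℕ) (a e : Fin s → ℕ)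
        (φ : Fin (m + 2) → MvPolynomial (Coord a) ℂ),
        (∀ j, Multihomogeneous e (φ j)) → aeval φ F = 0 →
          (∃ i₀, (e i₀ ≤ 4 ∨ (e i₀ ≤ 5 ∧ m = 4 ∧ ∑ i, a i = 4)) ∧ ∀ i, i ≠ i₀ → e i ≤ 2) →
            ∀ p : Coord a → L, IsPoint p → IsGenericPoint F (imagePoint φ p) →
              ∀ (r : ℕ) (v : Fin r → L), AlgebraicIndependent (ratioField (imagePoint φ p)) v →
                Even (Module.finrank (productField (imagePoint φ p) v) L)) := by
  intro m hm hme
  obtain ⟨q, rfl⟩ : ∃ q, m = 2 * q + 2 + 2 := by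
    obtain ⟨r, hr⟩ := hme
    exact ⟨r - 2, by omega⟩
  obtain ⟨P, hP1, hP2⟩ := Pool.Agent.Lib.MP_2619d0_ag.exists_conditions (2 * q + 2 + 2 + 2)
  refine ⟨P, hP1, ?_⟩
  intro F hF hFP L _ _ s a e φ hφ h0 hc p hp hx r v hv
  classical
  rw [← Nat.not_odd_iff_even]
  let ε : Coord a ≃ Fin (∑ i, (a i + 1)) := finSigmaFinEquiv
  have hN : ∑ i, (a i + 1) = (∑ i, a i) + s := by
    rw [Finset.sum_add_distrib]
    simp
  have hsurj : Function.Surjective (fun j => (ε.symm j).1) := fun i => ⟨ε ⟨i, 0⟩, by simp⟩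
  obtain ⟨K, hK⟩ := MP2619.Q6.exists_Bk hN (fun j => (ε.symm j).1) hsurj
  have hbl : ∀ c : Coord a, K.bl (ε c) = c.1 := by
    intro c
    rw [hK]
    simp
  have hev0 : ∀ g : MvPolynomial (Coord a) ℂ, aeval (fun k => p (ε.symm k)) (rename ε g) = aeval p g := by
    intro g
    rw [aeval_rename]
    congr 2
    funext k
    simp
  have hev : (fun j => aeval (fun k => p (ε.symm k)) (rename ε (φ j))) = imagePoint φ p := by
    funext j
    exact hev0 _
  have hd : ∀ j, K.MH (rename ε (φ j)) e := fun j => mh_rename ε K hbl (hφ j)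
  have h0' : aeval (fun j => rename ε (φ j)) F = 0 := by
    have h1 := MvPolynomial.comp_aeval_apply (R := ℂ) φ (rename ε) F
    rw [h0, map_zero] at h1
    exact h1.symm
  have hx' : MP2619.T.HG F (fun j => aeval (fun k => p (ε.symm k)) (rename ε (φ j))) := by
    rw [hev]
    exact hx
  have hm' : ∃ i₀, (e i₀ ≤ 4 ∨ (e i₀ ≤ 5 ∧ q = 0 ∧ ∑ i, a i = 4)) ∧ ∀ i, i ≠ i₀ → e i ≤ 2 := by
    obtain ⟨i₀, h, h'⟩ := hc
    refine ⟨i₀, ?_, h'⟩
    rcases h with h | ⟨h2, h3, h4⟩
    · exact Or.inl h
    · exact Or.inr ⟨h2, by omega, h4⟩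
  have hp' : ∀ i, ∃ j, K.bl j = i ∧ p (ε.symm j) ≠ 0 := by
    intro i
    obtain ⟨k, hk⟩ := hp i
    exact ⟨ε ⟨i, k⟩, hbl _, by simpa using hk⟩
  have hv' : AlgebraicIndependent (MP2619.T.ratioField
      (fun j => aeval (fun k => p (ε.symm k)) (rename ε (φ j)))) v := by
    rw [hev]
    exact hv
  have h1 := MP2619.Q9.q13_final (q := q) K ⟨hF, hP2 F hF hFP⟩ (fun j => rename ε (φ j)) hd h0'
    (fun k => p (ε.symm k)) hp' (Or.inr hm') hx' v hv'
  rw [hev] at h1
  exact h1

end Pool.Agent.Results.MP_2619d0_ag.LowDegreeForms
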