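import Mathlib
import Pool.Agent.Lib.MP_2619d0_ag.L.Final
import Pool.Agent.Lib.MP_2619d0_ag.Q7.B0
import Pool.Agent.Lib.MP_2619d0_ag.VeryGeneral

/-!
# Maps from products of projective spaces of any dimension to a very general cubic hypersurface of even dimension
-/

set_option autoImplicit false

namespace Pool.Agent.Results.MP_2619d0_ag.ProductSources

open MvPolynomial

universe u

/-- The property `p` holds for the very general cubic form in `m + 2` variables: there are
countably many polynomial conditions on the coefficients, each satisfied by some cubic form, such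
that `p F` holds for every cubic form `F` satisfying all of them. -/
def VeryGeneral (m : ℕ) (p : MvPolynomial (Fin (m + 2)) ℂ → Prop) : Prop :=
  ∃ P : ℕ → MvPolynomial ((Fin (m + 2)) →₀ ℕ) ℂ,
    (∀ k, ∃ G : MvPolynomial (Fin (m + 2)) ℂ, G.IsHomogeneous 3 ∧
        MvPolynomial.eval (fun d => G.coeff d) (P k) ≠ 0) ∧
    ∀ F : MvPolynomial (Fin (m + 2)) ℂ, F.IsHomogeneous 3 →
      (∀ k, MvPolynomial.eval (fun d => F.coeff d) (P k) ≠ 0) → p F

/-- `x` is a generic point of the projective hypersurface `X = (F = 0)`, given by homogeneous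
coordinates in the extension field `L` of `ℂ`: a form vanishes at `x` if and only if it is
divisible by `F`. -/
def IsGenericPoint {n : ℕ} {L : Type u} [Field L] [Algebra ℂ L] (F : MvPolynomial (Fin n) ℂ)
    (x : Fin n → L) : Prop :=
  ∀ (d : ℕ) (G : MvPolynomial (Fin n) ℂ), G.IsHomogeneous d → (aeval x G = 0 ↔ F ∣ G)

/-- The subfield `ℂ(x_i / x_j)` of `L` generated by the ratios of the coordinates of `x`. If `x`
is a generic point of `X = (F = 0)`, this is the function field `ℂ(X)`. -/
noncomputable def ratioField {n : ℕ} {L : Type u} [Field L] [Algebra ℂ L] (x : Fin n → L) :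
    IntermediateField ℂ L :=
  IntermediateField.adjoin ℂ {z : L | ∃ i j, z = x i / x j}

/-- The field `ℂ(X)(v)`, if `x` is a generic point of `X`. -/
noncomputable def productField {n r : ℕ} {L : Type u} [Field L] [Algebra ℂ L] (x : Fin n → L)
    (v : Fin r → L) : IntermediateField (ratioField x) L :=
  IntermediateField.adjoin (ratioField x) (Set.range v)

/-- The homogeneous coordinates of `ℙ^{a_0} × … × ℙ^{a_{s-1}}`: the `k`-th coordinate of the `i`-th factor is
`⟨i, k⟩`, `k = 0, …, a_i`. -/
abbrev Coord {s : ℕ} (a : Fin s → ℕ) : Type := Σ i : Fin s, Fin (a i + 1)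

/-- `f` is multihomogeneous of multidegree `e`: every monomial of `f` has degree `e i` in the coordinates of the
`i`-th factor. -/
def Multihomogeneous {s : ℕ} {a : Fin s → ℕ} (e : Fin s → ℕ) (f : MvPolynomial (Coord a) ℂ) : Prop :=
  ∀ d : Coord a →₀ ℕ, f.coeff d ≠ 0 → ∀ i, ∑ k : Fin (a i + 1), d ⟨i, k⟩ = e i

/-- `P` are the coordinates of a point of the product: in each factor some coordinate of `P` is not zero. -/
def IsPoint {s : ℕ} {a : Fin s → ℕ} {L : Type u} [Field L] (P : Coord a → L) : Prop :=
  ∀ i, ∃ k, P ⟨i, k⟩ ≠ 0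

/-- The complex point `P` lies in the Zariski closure of the point `p`: every multihomogeneous form over `ℂ` which
vanishes at `p` vanishes at `P`. -/
def InClosure {s : ℕ} {a : Fin s → ℕ} {L : Type u} [Field L] [Algebra ℂ L] (p : Coord a → L)
    (P : Coord a → ℂ) : Prop :=
  ∀ (d : Fin s → ℕ) (g : MvPolynomial (Coord a) ℂ), Multihomogeneous d g → aeval p g = 0 → aeval P g = 0

/-- The image of the point `p` under the rational map with homogeneous coordinates `φ`. -/
noncomputable def imagePoint {n : ℕ} {σ : Type} {L : Type u} [Field L] [Algebra ℂ L]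
    (φ : Fin n → MvPolynomial σ ℂ) (p : σ → L) : Fin n → L :=
  fun j => aeval p (φ j)

/-- The polynomial `f (P + Y)` in `Y`: the Taylor expansion of `f` at the point `P`. -/
noncomputable def taylorAt {σ : Type} (P : σ → ℂ) (f : MvPolynomial σ ℂ) : MvPolynomial σ ℂ :=
  aeval (fun i => C (P i) + X i : σ → MvPolynomial σ ℂ) f

/-- All `φ_j` vanish at `P` with multiplicity greater than `r`: all partial derivatives of order at most `r` of
all `φ_j` vanish at `P`. -/
def MultiplicityGT {n : ℕ} {σ : Type} (r : ℕ) (φ : Fin n → MvPolynomial σ ℂ) (P : σ → ℂ) : Prop :=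
  ∀ (j : Fin n) (d : σ →₀ ℕ), d.degree ≤ r → (taylorAt P (φ j)).coeff d = 0

/-- The quadratic part of `f` at the point `P`: the sum of the terms of degree two of the Taylor expansion
`f (P + Y)`. If `f (P + Y)` has no terms of degree less than two, it is a quadratic form on the tangent space of the
product at `P`, that is, it does not change if multiples of the `s` vectors `(0, …, P_i, …, 0)` are added to `Y`
(`P_i` the coordinates of `P` in the factor `i`; Euler). -/
noncomputable def quadraticPart {σ : Type} (P : σ → ℂ) (f : MvPolynomial σ ℂ) : MvPolynomial σ ℂ :=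
  homogeneousComponent 2 (taylorAt P f)

/-- The cone of the common zeros of the quadratic parts of all `φ_j` at `P` has dimension at most `d`, in the space of
all coordinates (so dimension at most `d - s` in the tangent space of the product at `P`): it meets some linear subspace
given by `d` linear forms only in zero. -/
def QuadraticZerosDimLE {n s : ℕ} {a : Fin s → ℕ} (d : ℕ) (φ : Fin n → MvPolynomial (Coord a) ℂ)
    (P : Coord a → ℂ) : Prop :=
  ∃ l : Fin d → Coord a → ℂ, ∀ y : Coord a → ℂ,
    (∀ j, eval y (quadraticPart P (φ j)) = 0) → (∀ i, ∑ k, l i k * y k = 0) → y = 0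

/-- `x` is a point of the total transform of `P`: `(P, x)` lies in the closure of the graph of the rational map with
homogeneous coordinates `φ`, that is, all forms `H (X; Z)` in the coordinates `X` of the product (multihomogeneous) and
`Z_0, …, Z_{n-1}` (homogeneous) such that `H (X; φ (X)) = 0` vanish at `(P, x)`. If some `φ_j (P) ≠ 0`, then
`x = (φ_j (P))_j` up to a scalar. -/
def InTotalTransform {n s : ℕ} {a : Fin s → ℕ} (φ : Fin n → MvPolynomial (Coord a) ℂ) (P : Coord a → ℂ)
    (x : Fin n → ℂ) : Prop :=
  x ≠ 0 ∧ ∀ (d : Fin s → ℕ) (e : ℕ) (H : MvPolynomial (Coord a ⊕ Fin n) ℂ),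
    (∀ u, H.coeff u ≠ 0 → (∀ i, ∑ k : Fin (a i + 1), u (Sum.inl ⟨i, k⟩) = d i) ∧
      ∑ j, u (Sum.inr j) = e) →
    aeval (Sum.elim X φ) H = 0 → aeval (Sum.elim P x) H = 0

/-- The total transform of `P` has (projective) dimension at most `b`: it does not meet some linear subspace of
`ℙ^{n-1}` given by `b + 1` linear forms. -/
def TotalTransformDimLE {n s : ℕ} {a : Fin s → ℕ} (b : ℕ) (φ : Fin n → MvPolynomial (Coord a) ℂ)
    (P : Coord a → ℂ) : Prop :=
  ∃ l : Fin (b + 1) → Fin n → ℂ, ∀ x, InTotalTransform φ P x → ∃ i, ∑ j, l i j * x j ≠ 0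

/-- The closed subset `E_1 = … = E_t = 0` of `ℙ^{n-1}` has dimension at most `b`: it does not meet some linear subspace
given by `b + 1` linear forms. -/
def ZeroSetDimLE {n t : ℕ} (b : ℕ) (E : Fin t → MvPolynomial (Fin n) ℂ) : Prop :=
  ∃ l : Fin (b + 1) → Fin n → ℂ, ∀ x, x ≠ 0 → (∀ i, aeval x (E i) = 0) → ∃ i, ∑ j, l i j * x j ≠ 0

/-- `P` and `Q` are coordinates of the same point of the product: proportional in every factor. -/
def SamePoint {s : ℕ} {a : Fin s → ℕ} (P Q : Coord a → ℂ) : Prop :=
  ∃ c : Fin s → ℂ, ∀ k : Coord a, P k = c k.1 * Q k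

private theorem taylor_rename {σ τ : Type} (ε : σ ≃ τ) (P : τ → ℂ) (g : MvPolynomial σ ℂ) :
    aeval (fun k => C (P k) + X k : τ → MvPolynomial τ ℂ) (rename ε g) =
      rename ε (taylorAt (fun k => P (ε k)) g) := by
  unfold taylorAt
  rw [aeval_rename]
  have h1 : (aeval ((fun k => C (P k) + X k : τ → MvPolynomial τ ℂ) ∘ ε) :
        MvPolynomial σ ℂ →ₐ[ℂ] MvPolynomial τ ℂ) =
      (rename ε).comp (aeval (fun k => C (P (ε k)) + X k : σ → MvPolynomial σ ℂ)) := by
    apply MvPolynomial.algHom_ext
    intro k
    simp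
  rw [h1]
  rfl

private theorem mh_rename {s n : ℕ} {a : Fin s → ℕ} (ε : Coord a ≃ Fin n) {m : ℕ}
    (K : MP2619.Q6.Bk m n s) (hbl : ∀ c : Coord a, K.bl (ε c) = c.1) {d : Fin s → ℕ}
    {g : MvPolynomial (Coord a) ℂ} (hg : Multihomogeneous d g) : K.MH (rename ε g) d := by
  classical
  intro u' hdj i
  obtain ⟨u, rfl, hu⟩ := coeff_rename_ne_zero _ _ _ hdj
  rw [← hg u hu i]
  have h1 : ∀ l, (Finsupp.mapDomain ε u) l = u (ε.symm l) := by
    intro l
    have h2 := Finsupp.mapDomain_apply ε.injective u (ε.symm l)
    rwa [ε.apply_symm_apply] at h2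
  simp only [h1]
  have h3 : ∑ l ∈ Finset.univ.filter (fun l => K.bl l = i), u (ε.symm l) =
      ∑ c ∈ Finset.univ.filter (fun c : Coord a => c.1 = i), u c := by
    refine Finset.sum_nbij' (fun l => ε.symm l) (fun c => ε c) ?_ ?_ ?_ ?_ ?_
    · intro l hl
      have h4 := (Finset.mem_filter.1 hl).2
      refine Finset.mem_filter.2 ⟨Finset.mem_univ _, ?_⟩
      rw [← hbl, ε.apply_symm_apply]
      exact h4
    · intro c hc
      exact Finset.mem_filter.2 ⟨Finset.mem_univ _, (hbl c).trans (Finset.mem_filter.1 hc).2⟩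
    · intro l _
      simp
    · intro c _
      simp
    · intro l _
      rfl
  rw [h3, Finset.sum_filter, Fintype.sum_sigma]
  rw [Finset.sum_eq_single i]
  · simp
  · intro i' _ hi'
    simp [hi']
  · intro h
    exact absurd (Finset.mem_univ _) h

private theorem lim_rename {s n : ℕ} {a : Fin s → ℕ} (ε : Coord a ≃ Fin n) {m : ℕ}
    (K : MP2619.Q6.Bk m n s) (hbl : ∀ c : Coord a, K.bl (ε c) = c.1) {r : ℕ}
    (φ : Fin r → MvPolynomial (Coord a) ℂ) (P0 : Fin n → ℂ) (x : Fin r → ℂ)
    (hx : K.Lim (fun j => rename ε (φ j)) P0 x) (d : Fin s → ℕ) (e : ℕ)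
    (H : MvPolynomial (Coord a ⊕ Fin r) ℂ)
    (hH : ∀ u, H.coeff u ≠ 0 → (∀ i, ∑ k : Fin (a i + 1), u (Sum.inl ⟨i, k⟩) = d i) ∧
      ∑ j, u (Sum.inr j) = e)
    (h0 : aeval (Sum.elim X φ) H = 0) : aeval (Sum.elim (fun c => P0 (ε c)) x) H = 0 := by
  classical
  let κ : Coord a ⊕ Fin r ≃ Fin n ⊕ Fin r := Equiv.sumCongr ε (Equiv.refl _)
  have h1 := hx (rename κ H) d e ?_ ?_
  · rw [aeval_rename] at h1
    have h2 : (Sum.elim P0 x ∘ κ) = Sum.elim (fun c => P0 (ε c)) x := by
      funext c
      rcases c with c | c <;> rfl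
    rw [h2] at h1
    exact h1
  · intro u' hu'
    obtain ⟨u, rfl, hu⟩ := coeff_rename_ne_zero _ _ _ hu'
    obtain ⟨hu1, hu2⟩ := hH u hu
    have h3 : ∀ l, (Finsupp.mapDomain κ u) l = u (κ.symm l) := by
      intro l
      have h4 := Finsupp.mapDomain_apply κ.injective u (κ.symm l)
      rwa [κ.apply_symm_apply] at h4
    refine ⟨fun i => ?_, ?_⟩
    · rw [← hu1 i]
      simp only [h3]
      have h5 : ∑ l ∈ Finset.univ.filter (fun l => K.bl l = i), u (κ.symm (Sum.inl l)) =
          ∑ c ∈ Finset.univ.filter (fun c : Coord a => c.1 = i), u (Sum.inl c) := by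
        refine Finset.sum_nbij' (fun l => ε.symm l) (fun c => ε c) ?_ ?_ ?_ ?_ ?_
        · intro l hl
          have h4 := (Finset.mem_filter.1 hl).2
          refine Finset.mem_filter.2 ⟨Finset.mem_univ _, ?_⟩
          rw [← hbl, ε.apply_symm_apply]
          exact h4
        · intro c hc
          exact Finset.mem_filter.2 ⟨Finset.mem_univ _, (hbl c).trans (Finset.mem_filter.1 hc).2⟩
        · intro l _
          simp
        · intro c _
          simp
        · intro l _
          rfl
      rw [h5, Finset.sum_filter, Fintype.sum_sigma, Finset.sum_eq_single i]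
      · simp
      · intro i' _ hi'
        simp [hi']
      · intro h
        exact absurd (Finset.mem_univ _) h
    · rw [← hu2]
      simp only [h3]
      rfl
  · rw [aeval_rename]
    have h2 : (Sum.elim X (fun j => rename ε (φ j)) ∘ κ : Coord a ⊕ Fin r → MvPolynomial (Fin n) ℂ) =
        fun c => rename ε (Sum.elim X φ c) := by
      funext c
      rcases c with c | c
      · simp [κ]
      · rfl
    rw [h2]
    have h3 := MvPolynomial.comp_aeval_apply (R := ℂ) (Sum.elim X φ : Coord a ⊕ Fin r → _) (rename ε) H
    rw [h0, map_zero] at h3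
    exact h3.symm

/-- Let `m ≥ 4` be even and let `X = (F = 0) ⊂ ℙ^{m+1}` be the very general cubic hypersurface. Let
`Y = ℙ^{a_0} × … × ℙ^{a_{s-1}}` be a product of projective spaces of any dimension, `φ_0, …, φ_{m+1}` forms on `Y` of the
same multidegree `e` with `F(φ) = 0`, `L` an extension field of `ℂ` and `p ∈ Y(L)` any point whose image `x = φ(p)` is a
generic point of `X`; let `v_1, …, v_r ∈ L` be algebraically independent over `ℂ(X) = ℂ(x_i / x_j)`. Let `A ⊂ ℙ^{m+1}`
be a closed subset of dimension at most `m / 2`, and assume that every multiple base point `P` in the closure of `p` (a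
zero of multiplicity at least two of all `φ_j`) has one of the following three properties:

* `P` is a zero of multiplicity exactly two and the common zeros of the quadratic parts of the `φ_j` at `P` have
dimension at most `m / 2 + 1` in the tangent space of `Y` at `P` (this is always true if `m = dim Y = 4`), or `P` is one
of finitely many points of multiplicity exactly two;
* the sum of the dimension of these common zeros and of the dimension of the total transform of `P` is at most `m`;
* the total transform of `P` is contained in `A`.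

Then the degree `[L : ℂ(X)(v)]` is even or infinite (`finrank` is `0` for an infinite extension).

For `r = 0` and `L = ℂ(V)`: let `V ⊂ Y` be a subvariety which is mapped by `φ` onto `X` with odd degree, and let `W` be
the set of the multiple base points in `V` which do not have one of the first two properties. Then the total transform of
`W` in `X` has dimension greater than `m / 2`. In particular `V` contains a base point of multiplicity at least three, or
infinitely many base points of multiplicity two at which the quadratic parts vanish on a cone of dimension greater than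
`m / 2 + 1`. For `V = Y` and `m = dim Y = 4`: the total transform of the set of base points of multiplicity at least
three has dimension three, so a divisor over `Y` with centre in this set is mapped onto a threefold in `X`. For
`L = ℂ(X)`: the same for a rational section. For `L = ℂ(Y)`, `dim Y = m + r`: the same for a dominant map
`Y ⇢ X × 𝔸^r` of odd degree, in particular for a birational one, whose component `Y ⇢ X` is given by `φ`. -/
theorem result :
    ∀ m : ℕ, 4 ≤ m → Even m → VeryGeneral m (fun F =>
      ∀ (L : Type u) [Field L] [Algebra ℂ L] (s : ℕ) (a e : Fin s → ℕ)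
        (φ : Fin (m + 2) → MvPolynomial (Coord a) ℂ),
        (∀ j, Multihomogeneous e (φ j)) → aeval φ F = 0 →
          ∀ p : Coord a → L, IsPoint p → IsGenericPoint F (imagePoint φ p) →
            ∀ (T : Finset (Coord a → ℂ)) (t : ℕ) (E : Fin t → MvPolynomial (Fin (m + 2)) ℂ),
              (∀ i, ∃ k, (E i).IsHomogeneous k) → ZeroSetDimLE (m / 2) E →
              (∀ P : Coord a → ℂ, IsPoint P → InClosure p P → MultiplicityGT 1 φ P →
                (¬ MultiplicityGT 2 φ P ∧ ((m = 4 ∧ ∑ i, a i = 4) ∨
                  QuadraticZerosDimLE (m / 2 + 1 + s) φ P ∨ ∃ Q ∈ T, SamePoint P Q)) ∨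
                (∃ D b : ℕ, D + b ≤ m ∧ QuadraticZerosDimLE (D + s) φ P ∧
                  TotalTransformDimLE b φ P) ∨
                ∀ x, InTotalTransform φ P x → ∀ i, aeval x (E i) = 0) →
              ∀ (r : ℕ) (v : Fin r → L), AlgebraicIndependent (ratioField (imagePoint φ p)) v →
                Even (Module.finrank (productField (imagePoint φ p) v) L)) := by
  intro m hm hme
  obtain ⟨q, rfl⟩ : ∃ q, m = 2 * q + 2 + 2 := by
    obtain ⟨r, hr⟩ := hme
    exact ⟨r - 2, by omega⟩
  obtain ⟨P, hP1, hP2⟩ := Pool.Agent.Lib.MP_2619d0_ag.exists_conditions (2 * q + 2 + 2 + 2)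
  refine ⟨P, hP1, ?_⟩
  intro F hF hFP L _ _ s a e φ hφ h0 p hp hx T t E hE hEd hc r v hv
  classical
  rw [← Nat.not_odd_iff_even]
  let ε : Coord a ≃ Fin (∑ i, (a i + 1)) := finSigmaFinEquiv
  have hN : ∑ i, (a i + 1) = (∑ i, a i) + s := by
    rw [Finset.sum_add_distrib]
    simp
  have hsurj : Function.Surjective (fun j => (ε.symm j).1) := fun i => ⟨ε ⟨i, 0⟩, by simp⟩
  obtain ⟨K, hK⟩ := MP2619.Q6.exists_Bk hN (fun j => (ε.symm j).1) hsurj
  have hbl : ∀ c : Coord a, K.bl (ε c) = c.1 := by
    intro c
    rw [hK]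
    simp
  have hev0 : ∀ g : MvPolynomial (Coord a) ℂ, aeval (fun k => p (ε.symm k)) (rename ε g) = aeval p g := by
    intro g
    rw [aeval_rename]
    congr 2
    funext k
    simp
  have hev : (fun j => aeval (fun k => p (ε.symm k)) (rename ε (φ j))) = imagePoint φ p := by
    funext j
    exact hev0 _
  have hd : ∀ j, K.MH (rename ε (φ j)) e := fun j => mh_rename ε K hbl (hφ j)
  have h0' : aeval (fun j => rename ε (φ j)) F = 0 := by
    have h1 := MvPolynomial.comp_aeval_apply (R := ℂ) φ (rename ε) F
    rw [h0, map_zero] at h1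
    exact h1.symm
  have hx' : MP2619.T.HG F (fun j => aeval (fun k => p (ε.symm k)) (rename ε (φ j))) := by
    rw [hev]
    exact hx
  have hm' : K.MultCL (q + 2) (fun j => rename ε (φ j)) (fun k => p (ε.symm k)) := by
    have hd2 : (2 * q + 2 + 2) / 2 = q + 2 := by omega
    refine ⟨T.image fun Q k => Q (ε.symm k), t, E, hE, ?_, ?_⟩
    · obtain ⟨l, hl⟩ := hEd
      rw [← hd2]
      refine ⟨l, fun x hx hlx => ?_⟩
      by_contra hx0
      obtain ⟨i, hi⟩ := hl x hx0 hx
      exact hi (hlx i)
    · intro P0 hP0 hcl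
      have htay : ∀ r : ℕ, ¬ MultiplicityGT r φ (fun c => P0 (ε c)) →
          MP2619.Q6.TayNe r (fun j => rename ε (φ j)) P0 := by
        intro r hr
        unfold MultiplicityGT at hr
        push Not at hr
        obtain ⟨j, d, hdd, hdc⟩ := hr
        refine ⟨j, Finsupp.mapDomain ε d, ?_, ?_⟩
        · rw [Finsupp.degree_mapDomain]
          exact hdd
        · rw [taylor_rename, coeff_rename_mapDomain _ ε.injective]
          exact hdc
      have htay' : ∀ r : ℕ, MP2619.Q6.TayNe r (fun j => rename ε (φ j)) P0 →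
          ¬ MultiplicityGT r φ (fun c => P0 (ε c)) := by
        rintro r ⟨j, d, hdd, hdc⟩ hr
        apply hdc
        rw [taylor_rename]
        obtain ⟨d', rfl⟩ : ∃ d' : Coord a →₀ ℕ, Finsupp.mapDomain ε d' = d :=
          ⟨Finsupp.mapDomain ε.symm d, by
            rw [← Finsupp.mapDomain_comp]
            have h1 : (ε : Coord a → Fin (∑ i, (a i + 1))) ∘ ε.symm = id := by
              funext k
              simp
            rw [h1, Finsupp.mapDomain_id]⟩
        rw [coeff_rename_mapDomain _ ε.injective]
        rw [Finsupp.degree_mapDomain] at hdd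
        exact hr j d' hdd
      have hqz : ∀ D : ℕ, QuadraticZerosDimLE D φ (fun c => P0 (ε c)) →
          MP2619.Q6.ZL (fun j => rename ε (φ j)) P0 D := by
        rintro D ⟨l, hl⟩
        refine ⟨fun i k => l i (ε.symm k), fun w hw hlw => ?_⟩
        have h6 := hl (fun c => w (ε c)) (fun j => ?_) (fun i => ?_)
        · funext k
          have h7 := congrFun h6 (ε.symm k)
          simp only [Equiv.apply_symm_apply, Pi.zero_apply] at h7
          exact h7
        · have h7 := hw j
          unfold MP2619.Q6.qp MP2619.Q6.tay at h7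
          rw [taylor_rename, ← rename_homogeneousComponent, aeval_rename] at h7
          exact h7
        · have h7 := hlw i
          rw [← Equiv.sum_comp ε] at h7
          simp only [Equiv.symm_apply_apply] at h7
          exact h7
      have hlim : ∀ x : Fin (2 * q + 2 + 2 + 2) → ℂ, x ≠ 0 → K.Lim (fun j => rename ε (φ j)) P0 x →
          InTotalTransform φ (fun c => P0 (ε c)) x := by
        intro x hx0 hx
        exact ⟨hx0, fun d e H hH h0 => lim_rename ε K hbl φ P0 x hx d e H hH h0⟩
      have h1 : IsPoint (fun c => P0 (ε c)) := by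
        intro i
        obtain ⟨j, hj, hj0⟩ := hP0 i
        rw [hK] at hj
        subst hj
        exact ⟨(ε.symm j).2, by simpa using hj0⟩
      have h1' : InClosure p (fun c => P0 (ε c)) := by
        intro d g hg hg0
        have h2 := hcl (rename ε g) d (mh_rename ε K hbl hg) (by rw [hev0, hg0])
        rw [aeval_rename] at h2
        exact h2
      by_cases hmu : MultiplicityGT 1 φ (fun c => P0 (ε c))
      · rcases hc _ h1 h1' hmu with ⟨h2, h3⟩ | ⟨D, b, hDb, hD, l, hl⟩ | h2
        · have h4 := htay 2 h2
          rcases h3 with ⟨h3, h5⟩ | h3 | ⟨Q, hQ, c, hcQ⟩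
          · refine Or.inr (Or.inl ⟨h4, Or.inl
              (MP2619.Q6.zl_of_tay2 _ P0 (fun h6 => htay' 1 h6 hmu) h4 _ ?_)⟩)
            rw [hN, h5]
            omega
          · refine Or.inr (Or.inl ⟨h4, Or.inl ?_⟩)
            rw [← hd2]
            exact hqz _ h3
          · refine Or.inr (Or.inl ⟨h4, Or.inr ⟨_, Finset.mem_image_of_mem _ hQ, c, fun j => ?_⟩⟩)
            have h3 : P0 (ε (ε.symm j)) = c (ε.symm j).1 * Q (ε.symm j) := hcQ (ε.symm j)
            rw [← hbl, ε.apply_symm_apply] at h3
            exact h3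
        · refine Or.inr (Or.inr (Or.inl ⟨D + s, b + 1, by omega, hqz _ hD, l, fun x hx hlx => ?_⟩))
          by_contra hx0
          obtain ⟨i, hi⟩ := hl x (hlim x hx0 hx)
          exact hi (hlx i)
        · exact Or.inr (Or.inr (Or.inr fun x hx0 hx => h2 x (hlim x hx0 hx)))
      · exact Or.inl (htay 1 hmu)
  have hp' : ∀ i, ∃ j, K.bl j = i ∧ p (ε.symm j) ≠ 0 := by
    intro i
    obtain ⟨k, hk⟩ := hp i
    exact ⟨ε ⟨i, k⟩, hbl _, by simpa using hk⟩
  have hv' : AlgebraicIndependent (MP2619.T.ratioField
      (fun j => aeval (fun k => p (ε.symm k)) (rename ε (φ j)))) v := by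
    rw [hev]
    exact hv
  have h1 := MP2619.Q9.q17_final (q := q) K ⟨hF, hP2 F hF hFP⟩ (fun j => rename ε (φ j)) hd h0'
    (fun k => p (ε.symm k)) hp' hm' hx' v hv'
  rw [hev] at h1
  exact h1

end Pool.Agent.Results.MP_2619d0_ag.ProductSources
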