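import Mathlib
import Pool.Agent.Lib.MP_2619d0_ag.VeryGeneral
import Pool.Agent.Lib.MP_2619d0_ag.N.Main
import Pool.Agent.Lib.MP_2619d0_ag.N.C1

/-!
# Secant lines of a very general cubic hypersurface through the generic point of projective space

All dimensions `m ≥ 3` (in particular all even `m ≥ 4`).
-/

set_option autoImplicit false

namespace Pool.Agent.Results.MP_2619d0_ag.SecantParity

open MvPolynomial

/-- The property `p` holds for the very general cubic form in `m + 2` variables: there are
countably many polynomial conditions on the coefficients, each satisfied by some cubic form, such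
that `p F` holds for every cubic form `F` satisfying all of them. -/
def VeryGeneral (m : ℕ) (p : MvPolynomial (Fin (m + 2)) ℂ → Prop) : Prop :=
  ∃ P : ℕ → MvPolynomial ((Fin (m + 2)) →₀ ℕ) ℂ,
    (∀ k, ∃ G : MvPolynomial (Fin (m + 2)) ℂ, G.IsHomogeneous 3 ∧
        MvPolynomial.eval (fun d => G.coeff d) (P k) ≠ 0) ∧
    ∀ F : MvPolynomial (Fin (m + 2)) ℂ, F.IsHomogeneous 3 →
      (∀ k, MvPolynomial.eval (fun d => F.coeff d) (P k) ≠ 0) → p F

variable {n : ℕ} {M : Type*} [Field M] [Algebra ℂ M]

/-- `u` is a generic point of the projective space `ℙ^{n-1}` over `ℂ`, given by homogeneous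
coordinates in the extension field `M` of `ℂ`: no nonzero form with coefficients in `ℂ` vanishes
at `u`. -/
def IsGenericPointOfSpace (u : Fin n → M) : Prop :=
  ∀ (d : ℕ) (G : MvPolynomial (Fin n) ℂ), G.IsHomogeneous d → aeval u G = 0 → G = 0

/-- The subfield `ℂ(u_i / u_j)` of `M` generated by the ratios of the coordinates of `u`. If `u`
is a generic point of `ℙ^{n-1}`, this is the function field `ℂ(ℙ^{n-1})`. -/
noncomputable def ratioField (u : Fin n → M) : IntermediateField ℂ M :=
  IntermediateField.adjoin ℂ {z : M | ∃ i j, z = u i / u j}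

universe v

/-- Let `m ≥ 3` and let `X = (F = 0) ⊂ ℙ^{m+1}` be the very general cubic hypersurface. Let `M` be
an extension field of `ℂ`, let `x`, `y` be vectors with coordinates in `M` and `F(x) = F(y) = 0`, and
assume that `x + y` is a generic point of `ℙ^{m+1}`. Then the degree `[M : ℂ(ℙ^{m+1})]` is not odd (it
is even or infinite). -/
theorem result :
    ∀ m : ℕ, 3 ≤ m →
      VeryGeneral m (fun F =>
        ∀ (M : Type v) [Field M] [Algebra ℂ M] (x y : Fin (m + 2) → M),
          aeval x F = 0 → aeval y F = 0 → IsGenericPointOfSpace (x + y) →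
            ¬ Odd (Module.finrank (ratioField (x + y)) M)) := by
  intro m hm
  obtain ⟨P, hP1, hP2⟩ := Pool.Agent.Lib.MP_2619d0_ag.exists_conditions (m + 2)
  refine ⟨P, hP1, ?_⟩
  intro F hF hFP M _ _ x y hx hy hgen
  have hVG : Pool.Agent.Lib.MP_2619d0_ag.T.VG F := ⟨hF, hP2 F hF hFP⟩
  exact MP2619.N.secant_proj (N := m + 1) hF (MP2619.N.noSum (by omega) hVG) x y hx hy hgen

end Pool.Agent.Results.MP_2619d0_ag.SecantParity
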